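import Pool.Agent.P8H19.QC.Fin

set_option autoImplicit false

namespace Pool.Agent.Results.MP_3c5a12_nt.CyclotomicPowers

open Finset Polynomial

/-- `[m] = (1-q^m)/(1-q)` as an element of `ℚ(q)` -/
noncomputable def qInt (m : ℕ) : RatFunc ℚ := (1 - RatFunc.X ^ m) / (1 - RatFunc.X)

/-- the `q`-shifted factorial `(a;p)_k = ∏_{j<k} (1 - a p^j)` -/
noncomputable def qPoch (a p : RatFunc ℚ) (k : ℕ) : RatFunc ℚ := ∏ j ∈ range k, (1 - a * p ^ j)

/-- `S_d(n) = ∑_{k<n} [2dk+1] ((q;q^d)_k/(q^d;q^d)_k)^d q^(d(d-3)k/2)` -/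
noncomputable def S (d n : ℕ) : RatFunc ℚ :=
  ∑ k ∈ range n, qInt (2 * d * k + 1) *
    (qPoch RatFunc.X (RatFunc.X ^ d) k / qPoch (RatFunc.X ^ d) (RatFunc.X ^ d) k) ^ d *
      RatFunc.X ^ (d * (d - 3) * k / 2)

/-- an integer polynomial as an element of `ℚ(q)` -/
noncomputable def ofZ (P : ℤ[X]) : RatFunc ℚ :=
  algebraMap ℚ[X] (RatFunc ℚ) (P.map (Int.castRingHom ℚ))

/-- `R ≡ 0 (mod Φ_n(q)^j)`: `R = Φ_n(q)^j A(q)/B(q)` with `A, B ∈ ℤ[q]` and `Φ_n ∤ B` -/
def DivBy (n j : ℕ) (R : RatFunc ℚ) : Prop :=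
  ∃ A B : ℤ[X], ¬ cyclotomic n ℤ ∣ B ∧ R = ofZ (cyclotomic n ℤ) ^ j * ofZ A / ofZ B

theorem ofZ_eq (P : ℤ[X]) : ofZ P = eval₂ (Int.castRingHom (RatFunc ℚ)) RatFunc.X P := by
  have h : ((algebraMap ℚ[X] (RatFunc ℚ)).comp (mapRingHom (Int.castRingHom ℚ))) =
      eval₂RingHom (Int.castRingHom (RatFunc ℚ)) RatFunc.X := by
    apply Polynomial.ringHom_ext'
    · exact RingHom.ext_int _ _
    · simp
  exact RingHom.congr_fun h P

theorem X_pow_ne (m : ℕ) (hm : m ≠ 0) : (1 : RatFunc ℚ) - RatFunc.X ^ m ≠ 0 := by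
  intro h
  have h1 : algebraMap ℚ[X] (RatFunc ℚ) (X ^ m) = algebraMap ℚ[X] (RatFunc ℚ) 1 := by
    rw [map_pow, map_one, RatFunc.algebraMap_X]
    exact (sub_eq_zero.1 h).symm
  have h2 := RatFunc.algebraMap_injective ℚ h1
  have h3 := congrArg (fun p => Polynomial.coeff p m) h2
  simp [coeff_one, hm] at h3

theorem S_eq {d r : ℕ} (hd : d = 2 * r + 3) (n : ℕ) :
    S d n = ofZ (P8H19.QC.Pn d r n) / ofZ (P8H19.QC.Bn d n ^ d) := by
  have hd0 : d ≠ 0 := by omega
  have h : ∀ j : ℕ, j + 1 < n → (1 : RatFunc ℚ) - RatFunc.X ^ (d * (j + 1)) ≠ 0 :=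
    fun j _ => X_pow_ne _ (Nat.mul_ne_zero hd0 (Nat.succ_ne_zero j))
  have hB := P8H19.QC.Bn_ne (RatFunc.X : RatFunc ℚ) d n h
  rw [ofZ_eq, ofZ_eq, P8H19.QC.Pn_eval RatFunc.X d r n (by simpa using X_pow_ne 1 one_ne_zero) h,
    eval₂_pow, ← hd, mul_div_cancel_left₀ _ (pow_ne_zero _ hB)]
  unfold S qInt qPoch
  apply sum_congr rfl
  intro k _
  have e1 : d * (d - 3) * k / 2 = d * r * k := by
    have : d - 3 = 2 * r := by omega
    rw [this]
    apply Nat.div_eq_of_eq_mul_left (by norm_num)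
    ring
  rw [e1, prod_div_distrib]
  have e2 : ∀ j : ℕ, (RatFunc.X : RatFunc ℚ) * (RatFunc.X ^ d) ^ j = RatFunc.X ^ (1 + d * j) := by
    intro j; rw [pow_add, pow_one, pow_mul]
  have e3 : ∀ j : ℕ, (RatFunc.X : RatFunc ℚ) ^ d * (RatFunc.X ^ d) ^ j =
      RatFunc.X ^ (d * (j + 1)) := by
    intro j; rw [← pow_mul, ← pow_add]; congr 1; ring
  simp only [e2, e3]
  ring

theorem divBy {d r n i : ℕ} (hd : d = 2 * r + 3) (hn : 1 < n)
    (h2 : ∀ j : ℕ, j + 1 < n → ¬ n ∣ d * (j + 1))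
    (h : cyclotomic n ℤ ^ i ∣ P8H19.QC.Pn d r n) : DivBy n i (S d n) := by
  obtain ⟨A, hA⟩ := h
  refine ⟨A, P8H19.QC.Bn d n ^ d, ?_, ?_⟩
  · intro hdiv
    have hirr := (cyclotomic.irreducible (n := n) (by omega)).prime
    have h3 := hirr.dvd_of_dvd_pow hdiv
    unfold P8H19.QC.Bn at h3
    obtain ⟨j, hj, hj'⟩ := (Prime.dvd_finsetProd_iff hirr _).1 h3
    have := mem_range.1 hj
    exact P8H19.QC.Loc.not_dvd (Complex.isPrimitiveRoot_exp n (by omega)) (by omega)
      (h2 j (by omega)) hj'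
  · rw [S_eq hd, hA]
    congr 1
    unfold ofZ
    simp [Polynomial.map_mul, Polynomial.map_pow]

/-- Both questions: `Φ_n^3` for `n ≡ -1` and `Φ_n^4` for `2n ≡ -1` modulo `d`. -/
theorem result :
    (∀ d n : ℕ, Odd d → 5 ≤ d → 0 < n → (n : ℤ) ≡ -1 [ZMOD d] → DivBy n 3 (S d n)) ∧
    (∀ d n : ℕ, Odd d → 5 ≤ d → 0 < n → 2 * (n : ℤ) ≡ -1 [ZMOD d] → DivBy n 4 (S d n)) := by
  constructor
  · intro d n hodd hd5 hn0 hmod
    obtain ⟨r, hr⟩ : ∃ r, d = 2 * r + 3 := by
      obtain ⟨a, ha⟩ := hodd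
      exact ⟨a - 1, by omega⟩
    have hr1 : 1 ≤ r := by omega
    have hdvd : (d : ℤ) ∣ (n : ℤ) + 1 := by
      have := hmod.symm.dvd
      simpa using this
    obtain ⟨l, hl⟩ : ∃ l : ℕ, n + 1 = d * l := by
      have : (d : ℤ) ∣ ((n + 1 : ℕ) : ℤ) := by exact_mod_cast hdvd
      exact Int.natCast_dvd_natCast.1 this
    have hl0 : 0 < l := by
      rcases Nat.eq_zero_or_pos l with h | h
      · rw [h] at hl; omega
      · exact h
    obtain ⟨l', rfl⟩ : ∃ l', l = l' + 1 := ⟨l - 1, by omega⟩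
    have hlZ : (n : ℤ) + 1 = d * (l' + 1) := by exact_mod_cast hl
    have hdZ : (d : ℤ) = 2 * r + 3 := by exact_mod_cast hr
    have hn1 : 1 < n := by
      have : d ≤ d * (l' + 1) := Nat.le_mul_of_pos_right d (by omega)
      omega
    have hcop : Nat.Coprime n d := by
      have h : Nat.Coprime n (n + 1) := by simp
      exact Nat.Coprime.coprime_dvd_right ⟨l' + 1, hl⟩ h
    have h2 : ∀ j : ℕ, j + 1 < n → ¬ n ∣ d * (j + 1) := by
      intro j hj h
      have := Nat.le_of_dvd (by omega) (hcop.dvd_of_dvd_mul_left h)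
      omega
    -- `N = (2r+2)(l'+1) - 1`
    have hNn : (2 * r + 2) * (l' + 1) - 1 < n := by
      have : d * (l' + 1) = (2 * r + 2) * (l' + 1) + (l' + 1) := by rw [hr]; ring
      omega
    have hNZ : (((2 * r + 2) * (l' + 1) - 1 : ℕ) : ℤ) = (2 * r + 2) * (l' + 1) - 1 := by
      have : 1 ≤ (2 * r + 2) * (l' + 1) := Nat.mul_pos (by omega) (by omega)
      push_cast [Nat.cast_sub this]
      ring
    have hnZ : (n : ℤ) = (2 * r + 3) * (l' + 1) - 1 := by rw [← hdZ]; linear_combination hlZ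
    have hd2 : ∀ a b : ℤ, 0 < a → a < 5 → (d : ℤ) * b ≠ a := by
      intro a b ha ha5 h
      have : (d : ℤ) ∣ a := ⟨b, h.symm⟩
      have := Int.le_of_dvd ha this
      omega
    have hμZ : (((l' + 1) * (r + 2) - 1 : ℕ) : ℤ) = (l' + 1) * (r + 2) - 1 := by
      have : 1 ≤ (l' + 1) * (r + 2) := Nat.mul_pos (by omega) (by omega)
      push_cast [Nat.cast_sub this]
      ring
    refine divBy hr hn1 h2 (P8H19.QC.core d r n 0 l' ((l' + 1) * (r + 2) - 1)
      ((2 * r + 2) * (l' + 1) - 1) (2 * r + 2) (r + 2) 1 hr1 hr hn1 ?_ one_pos ?_ ?_ ?_ ?_ ?_ ?_ ?_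
      h2 hNn).1
    · rw [hNZ, hdZ, hnZ]; ring
    · rw [hdZ, hnZ]; ring
    · rw [hdZ, hnZ, hμZ]; ring
    · ring
    · zify
      rw [hμZ, hNZ]; ring
    · intro t ht i hi h
      rcases ht with rfl | rfl | rfl | rfl
      · apply hd2 1 (-i) (by norm_num) (by norm_num); linear_combination -h
      · have h5 : (d : ℤ) * (l' + 1 + i) = 0 := by linear_combination h - hlZ
        rcases mul_eq_zero.1 h5 with h6 | h6
        · omega
        · omega
      · apply hd2 2 (l' + 1 - i) (by norm_num) (by norm_num); linear_combination -h - hlZ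
      · apply hd2 1 (2 * (l' + 1) + i) (by norm_num) (by norm_num); linear_combination h - 2 * hlZ
    · intro i hi h
      have h6 : 2 * ((n : ℤ) * (r + 2)) + 1 = d * (2 * ((l' + 1) * (r + 2) - 1) + 1) := by
        rw [hdZ, hnZ]; ring
      apply hd2 1 (-(2 * (((l' : ℤ) + 1) * (r + 2) - 1) + 1) - 2 * i) (by norm_num) (by norm_num)
      linear_combination -2 * h + h6
    · intro j hj h
      obtain ⟨e, he⟩ := h
      have he0 : 0 < e := by
        by_contra h7
        have h8 : (n : ℤ) * e ≤ 0 := mul_nonpos_of_nonneg_of_nonpos (by positivity) (by omega)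
        have h9 : (0 : ℤ) ≤ (d : ℤ) * j := by positivity
        omega
      have hde : (d : ℤ) ∣ e + 1 := by
        refine ⟨(l' + 1) * e - j, ?_⟩
        linear_combination he + e * hlZ
      have h7 := Int.le_of_dvd (by omega) hde
      have h8 : (n : ℤ) * (2 * r + 2) ≤ n * e := by
        apply mul_le_mul_of_nonneg_left _ (by positivity)
        omega
      have h9 : (d : ℤ) * j < d * (((2 * r + 2) * (l' + 1) - 1 : ℕ) : ℤ) := by
        apply mul_lt_mul_of_pos_left (by exact_mod_cast hj) (by omega)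
      have h10 : 1 + (d : ℤ) * (((2 * r + 2) * (l' + 1) - 1 : ℕ) : ℤ) = n * (2 * r + 2) := by
        rw [hNZ, hdZ, hnZ]; ring
      omega
  · intro d n hodd hd5 hn0 hmod
    obtain ⟨r, hr⟩ : ∃ r, d = 2 * r + 3 := by
      obtain ⟨a, ha⟩ := hodd
      exact ⟨a - 1, by omega⟩
    have hr1 : 1 ≤ r := by omega
    have hdvd : (d : ℤ) ∣ 2 * (n : ℤ) + 1 := by
      have := hmod.symm.dvd
      simpa using this
    obtain ⟨l, hl⟩ : ∃ l : ℕ, 2 * n + 1 = d * l := by
      have : (d : ℤ) ∣ ((2 * n + 1 : ℕ) : ℤ) := by exact_mod_cast hdvd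
      exact Int.natCast_dvd_natCast.1 this
    obtain ⟨μ, rfl⟩ : ∃ μ, l = 2 * μ + 1 := by
      have h : Odd (d * l) := ⟨n, hl.symm⟩
      exact (Nat.odd_mul.1 h).2
    have hlZ : 2 * (n : ℤ) + 1 = d * (2 * μ + 1) := by exact_mod_cast hl
    have hdZ : (d : ℤ) = 2 * r + 3 := by exact_mod_cast hr
    have hn1 : 1 < n := by
      have : d ≤ d * (2 * μ + 1) := Nat.le_mul_of_pos_right d (by omega)
      omega
    have hcop : Nat.Coprime n d := by
      have h : Nat.Coprime n (2 * n + 1) := by simp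
      exact Nat.Coprime.coprime_dvd_right ⟨2 * μ + 1, hl⟩ h
    have h2 : ∀ j : ℕ, j + 1 < n → ¬ n ∣ d * (j + 1) := by
      intro j hj h
      have := Nat.le_of_dvd (by omega) (hcop.dvd_of_dvd_mul_left h)
      omega
    have hnN : n = (2 * r + 3) * μ + r + 1 := by
      have : 2 * n + 1 = 2 * ((2 * r + 3) * μ + r + 1) + 1 := by rw [hl, hr]; ring
      omega
    have hnZ : (n : ℤ) = (2 * r + 3) * μ + r + 1 := by exact_mod_cast hnN
    have hNn : μ + r * (2 * μ) + r < n := by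
      rw [hnN]
      have : (2 * r + 3) * μ = r * (2 * μ) + 3 * μ := by ring
      omega
    have hd2 : ∀ a b : ℤ, 0 < a → a < 5 → (d : ℤ) * b ≠ a := by
      intro a b ha ha5 h
      have : (d : ℤ) ∣ a := ⟨b, h.symm⟩
      have := Int.le_of_dvd ha this
      omega
    refine divBy hr hn1 h2 ((P8H19.QC.core d r n 0 (2 * μ) μ
      (μ + r * (2 * μ) + r) (2 * r + 1) 1 2 hr1 hr hn1 ?_ (by norm_num) ?_ ?_ ?_ rfl ?_ ?_ ?_
      h2 hNn).2 rfl)
    · rw [hdZ, hnZ]; push_cast; ring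
    · push_cast; linear_combination hlZ
    · linear_combination hlZ
    · ring
    · intro t ht i hi h
      push_cast at hi
      rcases ht with rfl | rfl | rfl | rfl
      · apply hd2 1 (-i) (by norm_num) (by norm_num); linear_combination -h
      · have h5 : (d : ℤ) * (2 * μ + 1 + i) = 0 := by linear_combination h - hlZ
        rcases mul_eq_zero.1 h5 with h6 | h6
        · omega
        · omega
      · apply hd2 3 (2 * μ + 1 - 2 * i) (by norm_num) (by norm_num)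
        linear_combination -2 * h - hlZ
      · apply hd2 1 (3 * (2 * μ + 1) + 2 * i) (by norm_num) (by norm_num)
        linear_combination 2 * h - 3 * hlZ
    · intro i hi h
      apply hd2 1 (-(2 * μ + 1) - 2 * i) (by norm_num) (by norm_num)
      linear_combination -2 * h + hlZ
    · intro j hj h
      obtain ⟨e, he⟩ := h
      have he0 : 0 < e := by
        by_contra h7
        have h8 : (n : ℤ) * e ≤ 0 := mul_nonpos_of_nonneg_of_nonpos (by positivity) (by omega)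
        have h9 : (0 : ℤ) ≤ (d : ℤ) * j := by positivity
        omega
      have hde : (d : ℤ) ∣ e + 2 := by
        refine ⟨(2 * μ + 1) * e - 2 * j, ?_⟩
        linear_combination 2 * he + e * hlZ
      have h7 := Int.le_of_dvd (by omega) hde
      have h8 : (n : ℤ) * (2 * r + 1) ≤ n * e := by
        apply mul_le_mul_of_nonneg_left _ (by positivity)
        omega
      have h9 : (d : ℤ) * j < d * ((μ + r * (2 * μ) + r : ℕ) : ℤ) := by
        apply mul_lt_mul_of_pos_left (by exact_mod_cast hj) (by omega)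
      have h10 : 1 + (d : ℤ) * ((μ + r * (2 * μ) + r : ℕ) : ℤ) = n * (2 * r + 1) := by
        rw [hdZ, hnZ]; push_cast; ring
      omega

end Pool.Agent.Results.MP_3c5a12_nt.CyclotomicPowers
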